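import Pool.Agent.H23.DM.Defs

/-!
# Row CC: the finite ring
-/

set_option autoImplicit false

open Finset Complex

namespace Pool.Agent.H6.DM.CC

open Pool.Agent.H31.SX (ND)
open Pool.Agent.H29.TC (AC MC)
open Pool.Agent.H23.DM (lg5 h5 Fq CS WD)

section ring

variable {R : Type} [CommRing R]

theorem ac_neg {θ : R → ℂ} (h : AC θ) (x : R) : θ (-x) = (starRingEnd ℂ) (θ x) := by
  have h1 : θ (-x) * θ x = 1 := by
    rw [← h.add, neg_add_cancel, h.zero]
  have h2 : (starRingEnd ℂ) (θ x) * θ x = 1 := by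
    rw [← Complex.normSq_eq_conj_mul_self, Complex.normSq_eq_norm_sq, h.norm x]
    norm_num
  exact mul_right_cancel₀ (h.ne x) (h1.trans h2.symm)

open scoped Classical in
/-- the Fourier transform of the correlations -/
theorem ft_CS [Fintype R] {θ : R → ℂ} (h : AC θ) (I : Ideal R) (a Y₀ γ γ' b : R) :
    (∑ x : R, if x ∈ I then CS θ I a Y₀ γ γ' x * θ (-(b * x)) else 0) =
      WD θ I a Y₀ γ b * (starRingEnd ℂ) (WD θ I a Y₀ γ' b) := by
  have e1 : (starRingEnd ℂ) (WD θ I a Y₀ γ' b) =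
      ∑ τ : R, if τ ∈ I then θ (-(γ' * h5 a (Y₀ + τ) - b * τ)) else 0 := by
    unfold WD
    rw [map_sum]
    refine Finset.sum_congr rfl fun τ _ => ?_
    split_ifs with hτ
    · rw [ac_neg h]
    · exact map_zero _
  rw [e1]
  unfold WD
  rw [Finset.sum_mul_sum, Finset.sum_comm]
  have e2 : (∑ x : R, if x ∈ I then CS θ I a Y₀ γ γ' x * θ (-(b * x)) else 0) =
      ∑ x : R, ∑ τ : R, if τ ∈ I then (if x ∈ I then
        θ (γ * h5 a (Y₀ + τ + x) - γ' * h5 a (Y₀ + τ)) * θ (-(b * x)) else 0) else 0 := by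
    refine Finset.sum_congr rfl fun x _ => ?_
    by_cases hx : x ∈ I
    · rw [if_pos hx]
      unfold CS
      rw [Finset.sum_mul]
      refine Finset.sum_congr rfl fun τ _ => ?_
      by_cases hτ : τ ∈ I
      · rw [if_pos hτ, if_pos hτ, if_pos hx]
      · rw [if_neg hτ, if_neg hτ, zero_mul]
    · rw [if_neg hx]
      symm
      refine Finset.sum_eq_zero fun τ _ => ?_
      by_cases hτ : τ ∈ I
      · rw [if_pos hτ, if_neg hx]
      · rw [if_neg hτ]
  rw [e2, Finset.sum_comm]
  refine Finset.sum_congr rfl fun τ _ => ?_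
  by_cases hτ : τ ∈ I
  · simp only [if_pos hτ]
    refine Fintype.sum_equiv (Equiv.addRight τ) _ _ fun x => ?_
    rw [Equiv.coe_addRight]
    by_cases hx : x ∈ I
    · rw [if_pos hx, if_pos (I.add_mem hx hτ), ← h.add, ← h.add]
      congr 1
      rw [show Y₀ + τ + x = Y₀ + (x + τ) by ring]
      ring
    · have hx' : x + τ ∉ I := by
        intro h1
        apply hx
        have h3 := I.sub_mem h1 hτ
        rwa [add_sub_cancel_right] at h3
      rw [if_neg hx, if_neg hx', zero_mul]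
  · simp only [if_neg hτ, Finset.sum_const_zero, mul_zero]

theorem inv_add {u d : R} (hu : IsUnit u) (hd : d * d = 0) :
    Ring.inverse (u + d) = Ring.inverse u - d * Ring.inverse u ^ 2 := by
  have h1 : u * Ring.inverse u = 1 := Ring.mul_inverse_cancel u hu
  have h2 : (u + d) * (Ring.inverse u - d * Ring.inverse u ^ 2) = 1 := by
    linear_combination (1 - d * Ring.inverse u) * h1 - Ring.inverse u ^ 2 * hd
  have h3 : IsUnit (u + d) := IsUnit.of_mul_eq_one _ h2
  have h4 := Ring.inverse_mul_cancel (u + d) h3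
  linear_combination (Ring.inverse u - d * Ring.inverse u ^ 2) * h4 -
    Ring.inverse (u + d) * h2

theorem h5_add {a U d : R} (hU : IsUnit U) (hd : d * d = 0) (had : a * d = 0) :
    h5 a (U + d) = h5 a U - 2 * (d * Ring.inverse U ^ 2) := by
  unfold h5
  rw [inv_add hU hd]
  generalize Ring.inverse U = v
  generalize Ring.inverse (3 : R) = i
  generalize Ring.inverse (5 : R) = j
  have h1 : a ^ 2 * (v - d * v ^ 2) ^ 3 = a ^ 2 * v ^ 3 := by
    linear_combination (a * (-3 * v ^ 4 + 3 * d * v ^ 5 - d ^ 2 * v ^ 6)) * had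
  have h2 : a ^ 4 * (v - d * v ^ 2) ^ 5 = a ^ 4 * v ^ 5 := by
    linear_combination (a ^ 3 * (-5 * v ^ 6 + 10 * d * v ^ 7 - 10 * d ^ 2 * v ^ 8 +
      5 * d ^ 3 * v ^ 9 - d ^ 4 * v ^ 10)) * had
  linear_combination (2 * i) * h1 + (2 * j) * h2

theorem inv_mul_eq {U Y d τ : R} (hU : IsUnit U) (hY : IsUnit Y) (h : U = Y + τ)
    (hd : τ * d = 0) : d * Ring.inverse U = d * Ring.inverse Y := by
  have h1 : U * Ring.inverse U = 1 := Ring.mul_inverse_cancel U hU
  have h2 : Y * Ring.inverse Y = 1 := Ring.mul_inverse_cancel Y hY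
  subst h
  linear_combination (-d * Ring.inverse (Y + τ)) * h2 + (d * Ring.inverse Y) * h1 -
    Ring.inverse (Y + τ) * Ring.inverse Y * hd

theorem eq_bot_of_pow (I : Ideal R) (h : ∀ w ∈ I, (∀ t ∈ I, t * w = 0) → w = 0) (N : ℕ)
    (hN : I ^ N = ⊥) : I = ⊥ := by
  have key : ∀ n : ℕ, I ^ (n + 1) = ⊥ → I = ⊥ := by
    intro n
    induction n with
    | zero => intro h1; rwa [zero_add, pow_one] at h1
    | succ n ih =>
      intro h1
      apply ih
      rw [eq_bot_iff]
      intro w hw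
      rw [Ideal.mem_bot]
      refine h w ?_ ?_
      · exact Ideal.pow_le_self (Nat.succ_ne_zero n) hw
      · intro t ht
        have h3 : t * w ∈ I * I ^ (n + 1) := Ideal.mul_mem_mul ht hw
        rw [← pow_succ', h1, Ideal.mem_bot] at h3
        exact h3
  refine key N ?_
  rw [pow_succ, hN, Ideal.bot_mul]

open scoped Classical in
/-- the dual sum at zero -/
theorem WD_zero [Fintype R] {θ : R → ℂ} (hθ : ND θ) (I : Ideal R) (N : ℕ) (hN : I ^ N = ⊥)
    (h2 : IsUnit (2 : R)) {a Y₀ γ : R} (ha : a ∈ I) (hY : IsUnit Y₀) (hγ : IsUnit γ)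
    (hW : WD θ I a Y₀ γ 0 ≠ 0) : ∀ δ ∈ I, δ = 0 := by
  have hac := hθ.ac
  have hYτ : ∀ τ ∈ I, IsUnit (Y₀ + τ) := by
    intro τ hτ
    have h1 : IsNilpotent τ := ⟨N, by
      have h3 := Ideal.pow_mem_pow hτ N
      rwa [hN, Ideal.mem_bot] at h3⟩
    exact Pool.Agent.H29.TC.unit_add_nil hY h1
  have key : ∀ d ∈ I, (∀ t ∈ I, t * d = 0) → θ (-(2 * γ * Ring.inverse Y₀ ^ 2 * d)) = 1 := by
    intro d hd hdI
    have h1 : WD θ I a Y₀ γ 0 = WD θ I a Y₀ γ 0 * θ (-(2 * γ * Ring.inverse Y₀ ^ 2 * d)) := by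
      conv_lhs => unfold WD
      conv_rhs => unfold WD
      rw [Finset.sum_mul]
      refine Fintype.sum_equiv (Equiv.subRight d) _ _ fun τ => ?_
      rw [Equiv.subRight_apply]
      by_cases hτ : τ ∈ I
      · have hτ' : τ - d ∈ I := I.sub_mem hτ hd
        rw [if_pos hτ, if_pos hτ', ← hac.add]
        congr 1
        have h3 := h5_add (a := a) (hYτ _ hτ') (hdI d hd) (hdI a ha)
        have h4 := inv_mul_eq (hYτ _ hτ') hY rfl (hdI _ hτ')
        rw [show Y₀ + (τ - d) + d = Y₀ + τ by ring] at h3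
        rw [h3]
        linear_combination (-2 * γ * (Ring.inverse (Y₀ + (τ - d)) + Ring.inverse Y₀)) * h4
      · have hτ' : τ - d ∉ I := fun h3 => hτ (by
          have h4 := I.add_mem h3 hd
          rwa [sub_add_cancel] at h4)
        rw [if_neg hτ, if_neg hτ', zero_mul]
    have h3 : WD θ I a Y₀ γ 0 * (θ (-(2 * γ * Ring.inverse Y₀ ^ 2 * d)) - 1) = 0 := by
      rw [mul_sub, mul_one, ← h1, sub_self]
    rcases mul_eq_zero.1 h3 with h4 | h4
    · exact absurd h4 hW
    · exact sub_eq_zero.1 h4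
  have hY' : IsUnit (Ring.inverse Y₀) :=
    IsUnit.of_mul_eq_one _ (Ring.inverse_mul_cancel Y₀ hY)
  have hu : IsUnit (-(2 * γ * Ring.inverse Y₀ ^ 2)) := ((h2.mul hγ).mul (hY'.pow 2)).neg
  obtain ⟨v, hv⟩ := hu.exists_right_inv
  have h1 := eq_bot_of_pow I (fun w hw hwI => hθ.nd w fun s => ?_) N hN
  · intro δ hδ
    rw [h1, Ideal.mem_bot] at hδ
    exact hδ
  · have h3 := key (s * v * w) (I.mul_mem_left _ hw) fun t ht => by
      rw [show t * (s * v * w) = s * v * (t * w) by ring, hwI t ht, mul_zero]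
    rw [← h3]
    congr 1
    linear_combination (-(s * w)) * hv

/-- the size of an ideal and its intersection with an ideal -/
theorem ncard_le [Finite R] (A I : Ideal R) :
    (Nat.card A : ℝ) ≤ Nat.card ((A ⊓ I : Ideal R)) * Nat.card (R ⧸ I) := by
  classical
  have : Fintype R := Fintype.ofFinite R
  have : Fintype (R ⧸ I) := Fintype.ofFinite _
  have h1 := Finset.card_le_mul_card_image (f := fun x : R => Ideal.Quotient.mk I x)
    (Finset.univ.filter fun x : R => x ∈ A)
    (Finset.univ.filter fun x : R => x ∈ A ⊓ I).card (by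
      intro c hc
      obtain ⟨x₀, hx₀, rfl⟩ := Finset.mem_image.1 hc
      refine Finset.card_le_card_of_injOn (fun x => x - x₀) ?_ ?_
      · intro x hx
        simp only [Finset.coe_filter, Finset.mem_filter, Finset.mem_univ, true_and,
          Set.mem_ofPred_eq] at hx hx₀ ⊢
        exact ⟨A.sub_mem hx.1 hx₀, Ideal.Quotient.eq.1 hx.2⟩
      · intro x _ y _ hxy
        exact sub_left_injective hxy)
  have h2 : (Finset.univ.filter fun x : R => x ∈ A).card = Nat.card A := by
    rw [Nat.card_eq_fintype_card, Fintype.card_subtype]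
  have h3 : (Finset.univ.filter fun x : R => x ∈ A ⊓ I).card =
      Nat.card ((A ⊓ I : Ideal R)) := by
    rw [Nat.card_eq_fintype_card, Fintype.card_subtype]
  rw [h2, h3] at h1
  have h4 : (Finset.image (fun x : R => Ideal.Quotient.mk I x)
      (Finset.univ.filter fun x : R => x ∈ A)).card ≤ Nat.card (R ⧸ I) := by
    rw [Nat.card_eq_fintype_card]
    exact Finset.card_le_univ _
  exact_mod_cast h1.trans (Nat.mul_le_mul_left _ h4)

/-- the annihilator of the solutions in `I` -/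
def gR (I : Ideal R) (w : R) : Ideal R where
  carrier := {x | ∀ δ ∈ I, w * δ = 0 → x * δ = 0}
  add_mem' := by
    intro x y hx hy δ hδ h
    rw [add_mul, hx δ hδ h, hy δ hδ h, add_zero]
  zero_mem' := by
    intro δ _ _
    rw [zero_mul]
  smul_mem' := by
    intro c x hx δ hδ h
    rw [smul_eq_mul, mul_assoc, hx δ hδ h, mul_zero]

theorem mem_gR {I : Ideal R} {w x : R} : x ∈ gR I w ↔ ∀ δ ∈ I, w * δ = 0 → x * δ = 0 := Iff.rfl

end ring

end Pool.Agent.H6.DM.CC
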