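import Pool.Agent.H23.DM.TargetsI
import Pool.Agent.H29.DM.TargetsR
import Pool.Agent.H16.SWX.CD
import Pool.Agent.H52.SX.FD
import Pool.Agent.H48.RC.CN
import Pool.Agent.H6.DM.CCR

/-!
# Row CC: the correlations of the functions on the residue classes
-/

set_option autoImplicit false

open NumberField Complex
open scoped nonZeroDivisors

namespace Pool.Agent.H6.DM.CC

open Pool.Agent.H25.HK Pool.Agent.H23.LB Pool.Agent.H23.LC
open Pool.Agent.H28.RC (Rep ft idl)
open Pool.Agent.H29.TC (Gn LC cq dvs AC MC)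
open Pool.Agent.H31.SX
open Pool.Agent.H23.DM
open Pool.Agent.H16.SWX (inverse_mk exists_theta not_unit_of isUnit_of_sup one_le_Nf coord)
open Pool.Agent.H81.THC (fi_mono fi_le)
open Pool.Agent.H52.SX (mem_add mem_sub mem_neg mem_zero mem_smul ca_norm ca_mul_conj
  mem_iff_coord card_quot card_quot_quot nf_pos nf_le ncard_ann)

section

variable {K : Type} [Field K] [NumberField K]

omit [NumberField K] in
theorem h5_mk {k : Ideal (𝓞 K)} {X Z π i j : 𝓞 K} (h : X * Z - 1 ∈ k) (hi : 3 * i - 1 ∈ k)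
    (hj : 5 * j - 1 ∈ k) :
    h5 (Ideal.Quotient.mk k π) (Ideal.Quotient.mk k X) =
      Ideal.Quotient.mk k (2 * Z + 2 * i * π ^ 2 * Z ^ 3 + 2 * j * π ^ 4 * Z ^ 5) := by
  have e3 : Ring.inverse (3 : 𝓞 K ⧸ k) = Ideal.Quotient.mk k i := by
    have h1 := (inverse_mk hi).2
    rwa [map_ofNat] at h1
  have e5 : Ring.inverse (5 : 𝓞 K ⧸ k) = Ideal.Quotient.mk k j := by
    have h1 := (inverse_mk hj).2
    rwa [map_ofNat] at h1
  unfold h5
  rw [e3, e5, (inverse_mk h).2]
  simp only [map_add, map_mul, map_pow, map_ofNat]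

/-- the norm of the annihilator -/
theorem norm_g (hRA : X_RA) {k r : Ideal (𝓞 K)} (hr : r ≠ ⊥) [Fintype (𝓞 K ⧸ k)]
    {θ : 𝓞 K ⧸ k → ℂ} (hθ : ND θ) (w : 𝓞 K) (g : Ideal (𝓞 K))
    (hg : g = (gR (r.map (Ideal.Quotient.mk k)) (Ideal.Quotient.mk k w)).comap
      (Ideal.Quotient.mk k)) :
    Nf K (k ⊔ Ideal.span {w}) ≤ Nf K g * Nf K r := by
  classical
  set I := r.map (Ideal.Quotient.mk k) with hI
  set A : Ideal (𝓞 K ⧸ k) :=
    { carrier := {δ | Ideal.Quotient.mk k w * δ = 0}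
      add_mem' := by
        intro x y hx hy
        rw [Set.mem_ofPred_eq] at hx hy ⊢
        rw [mul_add, hx, hy, add_zero]
      zero_mem' := mul_zero _
      smul_mem' := by
        intro c x hx
        rw [Set.mem_ofPred_eq] at hx ⊢
        rw [smul_eq_mul, mul_left_comm, hx, mul_zero] } with hA
  have hmA : ∀ δ, δ ∈ A ↔ Ideal.Quotient.mk k w * δ = 0 := fun δ => Iff.rfl
  have h1 : (Nat.card A : ℝ) = Nf K (k ⊔ Ideal.span {w}) := by
    rw [← ncard_ann hRA hθ w, ← Nat.card_coe_set_eq]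
    rfl
  have h2 := ncard_le A I
  have h3 : (Nat.card ((𝓞 K ⧸ k) ⧸ I) : ℝ) ≤ Nf K r := by
    rw [hI, card_quot_quot]
    exact nf_le hr le_sup_right
  have h4 : (Nat.card ((A ⊓ I : Ideal (𝓞 K ⧸ k))) : ℝ) = Nf K g := by
    have h5 := (hRA _ θ hθ (A ⊓ I)).2.2.1
    have h6 : {y : 𝓞 K ⧸ k | ∀ t ∈ A ⊓ I, y * t = 0} =
        ((gR I (Ideal.Quotient.mk k w) : Ideal (𝓞 K ⧸ k)) : Set (𝓞 K ⧸ k)) := by
      ext y
      rw [Set.mem_ofPred_eq, SetLike.mem_coe, mem_gR]
      exact ⟨fun h δ h1 h2 => h δ ⟨h2, h1⟩, fun h t ht => h t ht.2 ht.1⟩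
    rw [h6, ← Nat.card_coe_set_eq, SetLike.coe_sort_coe] at h5
    have h7 := Submodule.card_eq_card_quotient_mul_card (gR I (Ideal.Quotient.mk k w))
    have h8 : (Fintype.card (𝓞 K ⧸ k) : ℝ) = (Nat.card (gR I (Ideal.Quotient.mk k w)) : ℝ) *
        (Nat.card ((𝓞 K ⧸ k) ⧸ gR I (Ideal.Quotient.mk k w)) : ℝ) := by
      rw [← Nat.card_eq_fintype_card, h7]
      push_cast
      ring
    have h9 : (0 : ℝ) < Nat.card (gR I (Ideal.Quotient.mk k w)) := by
      have : 0 < Nat.card (gR I (Ideal.Quotient.mk k w)) := Nat.card_pos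
      exact_mod_cast this
    rw [h8, mul_comm] at h5
    rw [mul_left_cancel₀ h9.ne' h5]
    have h10 : g.map (Ideal.Quotient.mk k) = gR I (Ideal.Quotient.mk k w) := by
      rw [hg, Ideal.map_comap_of_surjective _ Ideal.Quotient.mk_surjective]
    rw [← h10, card_quot_quot, sup_eq_right.2]
    rw [hg]
    intro x hx
    rw [Ideal.mem_comap, Ideal.Quotient.eq_zero_iff_mem.2 hx]
    exact Submodule.zero_mem _
  have h5 : (0 : ℝ) ≤ Nf K g := by unfold Nf; positivity
  rw [h1, h4] at h2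
  exact h2.trans (mul_le_mul_of_nonneg_left h3 h5)

omit [NumberField K] in
theorem coe_zero' : ((0 : 𝓞 K) : K) = 0 := map_zero (algebraMap (𝓞 K) K)

/-- the shift of the argument -/
theorem ft_shift {X : Finset K} {C c : K → ℂ} {ρ ν : K} [DecidableEq K]
    (h : ∀ x ∈ X, c (x + ρ) = C x) :
    ft K (X.image fun x => x + ρ) c ν = ca K ρ ν * ft K X C ν := by
  unfold ft
  rw [Finset.sum_image (fun a _ b _ hab => add_right_cancel hab), Finset.mul_sum]
  refine Finset.sum_congr rfl fun x hx => ?_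
  rw [h x hx]
  unfold ca
  rw [add_mul, map_add, mul_left_comm, ← Complex.exp_add]
  congr 2
  push_cast
  ring

end

open scoped Classical in
theorem pf_CC (hRC : Pool.Agent.H29.DM.R_RC) (hRW : Pool.Agent.H29.DM.R_RW) (hEF : D_EF)
    (hRA : Pool.Agent.H31.SX.X_RA) (hCF : Pool.Agent.H31.SX.X_CF) : D_CC := by
  intro K _ _ k κ e k' θ ι J η γ π Y₀ y₂ X₂ hk h210 hkκ hκr hκ6 hFM hPY heκ hX₂ hper
  obtain ⟨hek, hespan, hgen, -⟩ := hPY
  generalize hr : k.radical = r at hκr hX₂ hper ⊢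
  have hkr : k ≤ r := by rw [← hr]; exact Ideal.le_radical
  have hr0 : r ≠ ⊥ := fun h => hk (le_bot_iff.1 (h ▸ hkr))
  have hkk' : k ≤ k' := by rw [hek]; exact Ideal.mul_le_right
  have hk'0 : k' ≠ ⊥ := fun h => hk (le_bot_iff.1 (h ▸ hkk'))
  have hke : k ≤ e := by rw [hek]; exact Ideal.mul_le_left
  have he0 : e ≠ ⊥ := fun h => hk (le_bot_iff.1 (h ▸ hke))
  have hπe : π ∈ e := by
    rw [hespan]
    exact Ideal.mem_sup_left (Ideal.mem_span_singleton_self π)
  have hπκ : π ∈ κ := heκ hπe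
  have hπr : π ∈ r := hκr hπκ
  have hL0 : Mz K e ≠ 0 := by
    unfold Mz
    refine mul_ne_zero ?_ (inv_ne_zero (FractionalIdeal.coeIdeal_ne_zero.2 he0))
    refine FractionalIdeal.coeIdeal_ne_zero.2 ?_
    rw [Ne, Ideal.span_singleton_eq_bot]
    exact two_ne_zero
  set L : FI K := Mz K e with hL
  have hfin' : Finite (𝓞 K ⧸ k') := Ideal.finiteQuotientOfFreeOfNeBot k' hk'0
  have : Fintype (𝓞 K ⧸ k') := Fintype.ofFinite _
  obtain ⟨-, hEF1⟩ := hEF K k hk h210
  obtain ⟨-, -, hEF3, hEF4⟩ := hEF1 θ κ hFM.nd hkκ hκ6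
  have hgen' : Gn k' L y₂ :=
    (Pool.Agent.H29.THC.pf_CQ K k (fun _ => 0) L y₂ hk hL0 hgen).2.2 k' hkk'
  have hN0 : 0 < Nf K k' := nf_pos hk'0
  have hsq : ((Real.sqrt (Nf K k') : ℝ) : ℂ) ≠ 0 := by
    rw [Ne, Complex.ofReal_eq_zero, Real.sqrt_eq_zero']
    linarith
  have hsq2 : ((Real.sqrt (Nf K k') : ℝ) : ℂ) * ((Real.sqrt (Nf K k') : ℝ) : ℂ) =
      ((Nf K k' : ℝ) : ℂ) := by
    rw [← Complex.ofReal_mul, Real.mul_self_sqrt hN0.le]
  have hr1 : 1 ≤ Nf K r := one_le_Nf hr0
  have hρL : (Y₀ : K) * y₂ ∈ L := mem_smul L Y₀ hgen.mem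
  -- the coordinates on the residue class
  have hclass : ∀ z ∈ L, z - (Y₀ : K) * y₂ ∈ (r : FI K) * L → ∀ X : 𝓞 K,
      z - (X : K) * y₂ ∈ (k : FI K) * L → X - Y₀ ∈ r := by
    intro z hz hzρ X hX
    refine coord hgen hkr hX (y := (Y₀ : K) * y₂) ?_ hzρ
    rw [sub_self]
    exact mem_zero
  have hval : ∀ i ∈ J, ∀ z ∈ L, ∀ X : 𝓞 K, z - (X : K) * y₂ ∈ (k : FI K) * L →
      cq k (fun Y => η i (Y + Ideal.Quotient.mk k π) *
        (starRingEnd ℂ) (η i (Y - Ideal.Quotient.mk k π))) L y₂ z =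
      η i (Ideal.Quotient.mk k (X + π)) * (starRingEnd ℂ) (η i (Ideal.Quotient.mk k (X - π))) := by
    intro i hi z hz X hX
    rw [(Pool.Agent.H29.THC.pf_CQ K k _ L y₂ hk hL0 hgen).1 X z hX, map_add, map_sub]
  by_cases hu : IsUnit (Ideal.Quotient.mk k Y₀)
  · -- the coordinate is a unit
    have hI' : ∀ b : 𝓞 K ⧸ k', b ∈ r.map (Ideal.Quotient.mk k') →
        ∃ t ∈ r, Ideal.Quotient.mk k' t = b := by
      intro b hb
      obtain ⟨t, ht, hb⟩ := (Ideal.mem_map_iff_of_surjective _ Ideal.Quotient.mk_surjective).1 hb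
      exact ⟨t, ht, hb⟩
    set I : Ideal (𝓞 K ⧸ k') := r.map (Ideal.Quotient.mk k') with hI
    obtain ⟨N, hN⟩ : ∃ N : ℕ, r ^ N ≤ k' := by
      obtain ⟨N, hN⟩ := Ideal.exists_radical_pow_le_of_fg k (IsNoetherian.noetherian _)
      exact ⟨N, (hr ▸ hN).trans hkk'⟩
    have hIN : I ^ N = ⊥ := by
      rw [hI, ← Ideal.map_pow, Ideal.map_eq_bot_iff_le_ker, Ideal.mk_ker]
      exact hN
    have h210u : IsUnit (Ideal.Quotient.mk k (210 : 𝓞 K)) := isUnit_of_sup h210
    have h2' : IsUnit (2 : 𝓞 K ⧸ k') := by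
      have h1 : IsUnit (Ideal.Quotient.mk k' (210 : 𝓞 K)) :=
        isUnit_of_sup (top_le_iff.1 (h210 ▸ sup_le_sup_left hkk' _))
      rw [show (210 : 𝓞 K) = 105 * 2 by norm_num, map_mul] at h1
      have h3 := isUnit_of_mul_isUnit_right h1
      rwa [map_ofNat] at h3
    have h3u : IsUnit (Ideal.Quotient.mk k (3 : 𝓞 K)) := by
      have h1 := h210u
      rw [show (210 : 𝓞 K) = 70 * 3 by norm_num, map_mul] at h1
      exact isUnit_of_mul_isUnit_right h1
    have h5u : IsUnit (Ideal.Quotient.mk k (5 : 𝓞 K)) := by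
      have h1 := h210u
      rw [show (210 : 𝓞 K) = 42 * 5 by norm_num, map_mul] at h1
      exact isUnit_of_mul_isUnit_right h1
    obtain ⟨i3', hi3'⟩ := h3u.exists_right_inv
    obtain ⟨i3, rfl⟩ := Ideal.Quotient.mk_surjective i3'
    have hi3 : (3 : 𝓞 K) * i3 - 1 ∈ k := by
      rw [← Ideal.Quotient.mk_eq_mk_iff_sub_mem, map_mul, map_one]
      exact hi3'
    obtain ⟨i5', hi5'⟩ := h5u.exists_right_inv
    obtain ⟨i5, rfl⟩ := Ideal.Quotient.mk_surjective i5'
    have hi5 : (5 : 𝓞 K) * i5 - 1 ∈ k := by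
      rw [← Ideal.Quotient.mk_eq_mk_iff_sub_mem, map_mul, map_one]
      exact hi5'
    obtain ⟨θ', hθ', hθθ'⟩ := exists_theta hk hek hespan hπκ hFM.nd.ac (by
      intro b _ hb
      by_contra hc
      push Not at hc
      exact hb (hFM.nd.nd b hc))
    have hπI : Ideal.Quotient.mk k' π ∈ I := Ideal.mem_map_of_mem _ hπr
    have hYu : IsUnit (Ideal.Quotient.mk k' Y₀) := by
      have h1 := hu.map (Ideal.Quotient.factor hkk')
      rwa [Ideal.Quotient.factor_mk] at h1
    have hγu : ∀ i ∈ J, IsUnit (Ideal.Quotient.mk k' (γ i)) := fun i hi =>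
      hEF3 (η i) (γ i) e k' (hFM.lc i hi) (hFM.fq i hi) hek heκ
    -- the values
    have hPh : ∀ i ∈ J, ∀ (a : 𝓞 K) (z : K), z ∈ L → z - (a : K) * y₂ ∈ (k' : FI K) * L →
        PhZ k r e π Y₀ y₂ (η i) z = ci K r L ((Y₀ : K) * y₂) z *
          θ' (Ideal.Quotient.mk k' (γ i) *
            h5 (Ideal.Quotient.mk k' π) (Ideal.Quotient.mk k' a)) := by
      intro i hi a z hz ha
      unfold PhZ
      rw [← hL]
      by_cases hzρ : z - (Y₀ : K) * y₂ ∈ (r : FI K) * L
      · congr 1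
        obtain ⟨X, -, hX⟩ := hgen.gen z hz
        have h1 : X - Y₀ ∈ r := hclass z hz hzρ X hX
        have hXu : IsUnit (Ideal.Quotient.mk k X) := by
          refine not_unit_of hr.ge (a₀ := X) (X := Y₀) ?_ hu
          rw [← neg_sub]
          exact r.neg_mem h1
        have h2 : Ideal.Quotient.mk k' a = Ideal.Quotient.mk k' X := by
          rw [Ideal.Quotient.mk_eq_mk_iff_sub_mem]
          refine coord hgen' le_rfl ha (fi_mono hkk' L hX) ?_
          rw [sub_self]
          exact mem_zero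
        obtain ⟨Z', hZ'⟩ := hXu.exists_right_inv
        obtain ⟨Z, rfl⟩ := Ideal.Quotient.mk_surjective Z'
        have hXZ : X * Z - 1 ∈ k := by
          rw [← Ideal.Quotient.mk_eq_mk_iff_sub_mem, map_mul, map_one]
          exact hZ'
        rw [hval i hi z hz X hX, (hEF4 (η i) (γ i) π X (hFM.lc i hi).mc (hFM.fq i hi) hπκ).1 hXu,
          h2, h5_mk hXZ hi3 hi5, h5_mk (hkk' hXZ) (hkk' hi3) (hkk' hi5), ← map_mul, ← map_mul,
          ← map_mul, hθθ']
        congr 2
        ring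
      · have h0 : ci K r L ((Y₀ : K) * y₂) z = 0 := by
          unfold ci
          rw [if_neg hzρ]
        rw [h0, zero_mul, zero_mul]
    -- the transform
    have hCF' := hCF K ⊤ r k' (by
      intro h
      have h1 : (1 : 𝓞 K) ∈ (⊤ : Ideal (𝓞 K)) := trivial
      rw [h, Ideal.mem_bot] at h1
      exact one_ne_zero h1) hr0 hk'0 (top_sup_eq _) (top_sup_eq _) θ' hθ' L y₂
      ((Y₀ : K) * y₂) hL0 hgen' hρL Y₀ (by rw [sub_self]; exact mem_zero)
    simp only [Ideal.top_mul] at hCF'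
    obtain ⟨yy, hyy, hft⟩ := hCF'
    rw [← hI] at hft
    have hE : ∀ i ∈ J, ∀ (b : 𝓞 K) (ν : K),
        ν - (b : K) * yy ∈ (k' : FI K) * du K (((r ⊓ k' : Ideal (𝓞 K)) : FI K) * L) →
        ft K X₂ (PhZ k r e π Y₀ y₂ (η i)) ν = ca K ((Y₀ : K) * y₂) ν *
          WD θ' I (Ideal.Quotient.mk k' π) (Ideal.Quotient.mk k' Y₀)
            (Ideal.Quotient.mk k' (γ i)) (Ideal.Quotient.mk k' b) := by
      intro i hi b ν hb
      rw [hft (fun u => θ' (Ideal.Quotient.mk k' (γ i) * h5 (Ideal.Quotient.mk k' π) u))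
        (PhZ k r e π Y₀ y₂ (η i)) (fun a x hx ha => hPh i hi a x hx ha) X₂ hX₂ b ν hb]
      congr 1
      unfold WD
      refine Finset.sum_congr rfl fun τ _ => ?_
      by_cases hτ : τ ∈ I
      · rw [if_pos hτ, if_pos hτ, sub_eq_add_neg, hθ'.ac.add]
      · rw [if_neg hτ, if_neg hτ]
    have hcardN : (Fintype.card (𝓞 K ⧸ k') : ℝ) = Nf K k' := by
      rw [← card_quot, Nat.card_eq_fintype_card]
    refine ⟨?_, ?_, ?_⟩
    · -- the norm
      intro i hi ν hν
      obtain ⟨b, -, hb⟩ := hyy.gen ν hν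
      beta_reduce
      rw [hE i hi b ν hb, norm_div, norm_mul, ca_norm, one_mul, Complex.norm_real,
        Real.norm_of_nonneg (Real.sqrt_nonneg _), div_pow, Real.sq_sqrt hN0.le]
      have h1 := hRW (𝓞 K ⧸ k') θ' I N hθ' hIN h2' _ _ _ (Ideal.Quotient.mk k' b) hπI hYu
        (hγu i hi)
      rw [hcardN] at h1
      exact ((div_le_one hN0).2 h1).trans hr1
    · -- the value at zero
      intro i hi h0
      beta_reduce at h0
      have h1 : (0 : K) - ((0 : 𝓞 K) : K) * yy ∈
          (k' : FI K) * du K (((r ⊓ k' : Ideal (𝓞 K)) : FI K) * L) := by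
        have h3 : (0 : K) - ((0 : 𝓞 K) : K) * yy = 0 := by
          rw [coe_zero', zero_mul, sub_zero]
        rw [h3]
        exact mem_zero
      rw [hE i hi 0 0 h1, map_zero] at h0
      have h3 : WD θ' I (Ideal.Quotient.mk k' π) (Ideal.Quotient.mk k' Y₀)
            (Ideal.Quotient.mk k' (γ i)) 0 ≠ 0 := by
        intro h4
        rw [h4, mul_zero, zero_div] at h0
        exact h0 rfl
      have h4 := WD_zero hθ' I N hIN h2' hπI hYu (hγu i hi) h3
      intro t ht
      exact Ideal.Quotient.eq_zero_iff_mem.1 (h4 _ (Ideal.mem_map_of_mem _ ht))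
    · -- the correlations
      intro i hi j hj
      set a := Ideal.Quotient.mk k' π with ha
      set Y := Ideal.Quotient.mk k' Y₀ with hY
      set γi := Ideal.Quotient.mk k' (γ i) with hγi
      set γj := Ideal.Quotient.mk k' (γ j) with hγj
      have hw : Ideal.Quotient.mk k' (γ i - γ j) = γi - γj := map_sub _ _ _
      set H : 𝓞 K ⧸ k' → ℂ := fun u => CS θ' I a Y γi γj u / ((Nf K k' : ℝ) : ℂ) with hH
      obtain ⟨q1, q2, -⟩ := Pool.Agent.H29.THC.pf_CQ K k' H L y₂ hk'0 hL0 hgen'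
      obtain ⟨hC1, hC2, -, hC4⟩ := hRC (𝓞 K ⧸ k') θ' I N hθ' hIN h2' a Y γi γj hπI hYu
        (hγu i hi)
      set C : K → ℂ := fun x => ci K r L 0 x * cq k' H L y₂ x with hC
      have hcoI : ∀ x ∈ L, x ∈ (r : FI K) * L → ∀ X : 𝓞 K,
          x - (X : K) * y₂ ∈ (k : FI K) * L → Ideal.Quotient.mk k' X ∈ I := by
        intro x hx hxr X hX
        exact Ideal.mem_map_of_mem _ ((mem_iff_coord hgen hX r hkr).1 hxr)
      have hci1 : ∀ x, x ∈ (r : FI K) * L → ci K r L 0 x = 1 := by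
        intro x hx
        unfold ci
        rw [sub_zero, if_pos hx]
      have hci0 : ∀ x, x ∉ (r : FI K) * L → ci K r L 0 x = 0 := by
        intro x hx
        unfold ci
        rw [sub_zero, if_neg hx]
      set g : Ideal (𝓞 K) := (gR I (Ideal.Quotient.mk k' (γ i - γ j))).comap
        (Ideal.Quotient.mk k') with hg
      have hk'g : k' ≤ g := by
        intro x hx
        rw [hg, Ideal.mem_comap, Ideal.Quotient.eq_zero_iff_mem.2 hx]
        exact Submodule.zero_mem _
      have hg0 : g ≠ ⊥ := fun h => hk'0 (le_bot_iff.1 (h ▸ hk'g))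
      have hsupN : 0 ≤ Nf K (k' ⊔ Ideal.span {γ i - γ j}) := by
        unfold Nf
        positivity
      refine ⟨C, g, hg0, norm_g hRA hr0 hθ' (γ i - γ j) g (by rw [hg, hI]), ?_, ?_, ?_, ?_, ?_⟩
      · intro x hx t ht
        have ht1 : t ∈ (r : FI K) * L := fi_mono inf_le_left L ht
        have ht2 : t ∈ (k' : FI K) * L := fi_mono inf_le_right L ht
        rw [hC]
        beta_reduce
        rw [q2 x hx t ht2]
        congr 1
        by_cases h : x ∈ (r : FI K) * L
        · rw [hci1 _ h, hci1 _ (mem_add h ht1)]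
        · rw [hci0 _ h, hci0]
          intro h1
          apply h
          have h3 := mem_sub h1 ht1
          rwa [add_sub_cancel_right] at h3
      · intro x hx
        rw [hC]
        beta_reduce
        by_cases h : x ∈ (r : FI K) * L
        · obtain ⟨X, -, hX⟩ := hgen.gen x hx
          rw [hci1 _ h, one_mul, q1 X x (fi_mono hkk' L hX), hH]
          beta_reduce
          have h1 := hC1 _ (hcoI x hx h X hX)
          rw [hcardN, ← hw, ncard_ann hRA hθ'] at h1
          rw [norm_div, Complex.norm_real, Real.norm_of_nonneg hN0.le, div_pow, pow_two (Nf K k'),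
            div_le_div_iff₀ (by positivity) hN0]
          nlinarith [mul_le_mul_of_nonneg_right h1 hN0.le]
        · rw [hci0 _ h, zero_mul, norm_zero, zero_pow two_ne_zero]
          exact div_nonneg hsupN hN0.le
      · intro x hx hne
        rw [hC] at hne
        beta_reduce at hne
        by_cases h : x ∈ (r : FI K) * L
        · obtain ⟨X, -, hX⟩ := hgen.gen x hx
          rw [hci1 _ h, one_mul, q1 X x (fi_mono hkk' L hX), hH] at hne
          beta_reduce at hne
          have h1 := hC2 _ (hcoI x hx h X hX) (fun h3 => hne (by rw [h3, zero_div]))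
          rw [mem_iff_coord hgen' (fi_mono hkk' L hX) g hk'g, hg, Ideal.mem_comap, mem_gR, hw]
          exact h1
        · rw [hci0 _ h, zero_mul] at hne
          exact absurd rfl hne
      · intro hne t ht
        rw [hC] at hne
        beta_reduce at hne
        have h1 : (0 : K) - ((0 : 𝓞 K) : K) * y₂ ∈ (k' : FI K) * L := by
          have h3 : (0 : K) - ((0 : 𝓞 K) : K) * y₂ = 0 := by
            rw [coe_zero', zero_mul, sub_zero]
          rw [h3]
          exact mem_zero
        rw [hci1 _ mem_zero, one_mul, q1 0 0 h1, hH, map_zero] at hne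
        beta_reduce at hne
        have h3 := hC4 (fun h3 => hne (by rw [h3, zero_div])) _
          (Ideal.mem_map_of_mem (Ideal.Quotient.mk k') ht)
        rw [← hw, ← map_mul] at h3
        exact Ideal.Quotient.eq_zero_iff_mem.1 h3
      · intro X hX ν hν
        obtain ⟨b, -, hb⟩ := hyy.gen ν hν
        set ρ : K := (Y₀ : K) * y₂ with hρ
        have h1 := hft (fun u => H (u - Y)) (fun x => C (x - ρ)) (by
          intro a' x hx ha'
          beta_reduce
          rw [hC]
          beta_reduce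
          have h3 : x - ρ - ((a' - Y₀ : 𝓞 K) : K) * y₂ ∈ (k' : FI K) * L := by
            have h4 : x - ρ - ((a' - Y₀ : 𝓞 K) : K) * y₂ = x - (a' : K) * y₂ := by
              rw [hρ]; push_cast; ring
            rw [h4]
            exact ha'
          rw [q1 (a' - Y₀) (x - ρ) h3, map_sub]
          congr 1
          unfold ci
          rw [sub_zero]) (X.image fun x => x + ρ)
          (Pool.Agent.H48.RC.rep_shift hX hρL) b ν hb
        rw [ft_shift (C := C) (c := fun x => C (x - ρ)) (fun x _ => by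
          beta_reduce
          rw [add_sub_cancel_right])] at h1
        have hca : ca K ρ ν ≠ 0 := by
          intro h3
          have h4 := ca_norm ρ ν
          rw [h3, norm_zero] at h4
          exact zero_ne_one h4
        have h3 := mul_left_cancel₀ hca h1
        have h4 : (∑ τ : 𝓞 K ⧸ k', if τ ∈ I then
            H (Y + τ - Y) * θ' (-(Ideal.Quotient.mk k' b * τ)) else 0) =
            (∑ τ : 𝓞 K ⧸ k', if τ ∈ I then
              CS θ' I a Y γi γj τ * θ' (-(Ideal.Quotient.mk k' b * τ)) else 0) /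
              ((Nf K k' : ℝ) : ℂ) := by
          rw [Finset.sum_div]
          refine Finset.sum_congr rfl fun τ _ => ?_
          by_cases hτ : τ ∈ I
          · rw [if_pos hτ, if_pos hτ, add_sub_cancel_left, hH]
            ring
          · rw [if_neg hτ, if_neg hτ, zero_div]
        beta_reduce at h3
        rw [h3, h4, ft_CS hθ'.ac]
        beta_reduce
        rw [hE i hi b ν hb, hE j hj b ν hb, map_div₀, map_mul, Complex.conj_ofReal,
          div_mul_div_comm, hsq2]
        congr 1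
        linear_combination (-(WD θ' I a Y γi (Ideal.Quotient.mk k' b) *
          (starRingEnd ℂ) (WD θ' I a Y γj (Ideal.Quotient.mk k' b)))) * ca_mul_conj ρ ν
  · -- all values vanish
    have hzero : ∀ i ∈ J, ∀ z ∈ L, PhZ k r e π Y₀ y₂ (η i) z = 0 := by
      intro i hi z hz
      unfold PhZ
      rw [← hL]
      by_cases hzρ : z - (Y₀ : K) * y₂ ∈ (r : FI K) * L
      · obtain ⟨X, -, hX⟩ := hgen.gen z hz
        have h1 : X - Y₀ ∈ r := hclass z hz hzρ X hX
        have hXu : ¬ IsUnit (Ideal.Quotient.mk k X) := by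
          intro h2
          exact hu (not_unit_of hr.ge (a₀ := Y₀) (X := X) h1 h2)
        rw [hval i hi z hz X hX, (hEF4 (η i) (γ i) π X (hFM.lc i hi).mc (hFM.fq i hi) hπκ).2 hXu
          (hr.symm ▸ hκr), zero_mul, mul_zero]
      · have h0 : ci K r L ((Y₀ : K) * y₂) z = 0 := by
          unfold ci
          rw [if_neg hzρ]
        rw [h0, zero_mul]
    have hft0 : ∀ i ∈ J, ∀ ν : K, ft K X₂ (PhZ k r e π Y₀ y₂ (η i)) ν = 0 := by
      intro i hi ν
      unfold ft
      refine Finset.sum_eq_zero fun z hz => ?_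
      rw [hzero i hi z (hX₂.1 z hz), zero_mul]
    have hsupN : ∀ i j : ι, 0 ≤ Nf K (k' ⊔ Ideal.span {γ i - γ j}) := by
      intro i j
      unfold Nf
      positivity
    refine ⟨?_, ?_, ?_⟩
    · intro i hi ν _
      beta_reduce
      rw [hft0 i hi, zero_div, norm_zero]
      linarith
    · intro i hi h0
      beta_reduce at h0
      rw [hft0 i hi, zero_div] at h0
      exact absurd rfl h0
    · intro i hi j hj
      refine ⟨fun _ => 0, k' ⊔ Ideal.span {γ i - γ j}, ?_, ?_, fun _ _ _ _ => rfl, ?_, ?_, ?_, ?_⟩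
      · intro h
        exact hk'0 (le_bot_iff.1 (h ▸ (le_sup_left : k' ≤ k' ⊔ Ideal.span {γ i - γ j})))
      · exact le_mul_of_one_le_right (hsupN i j) hr1
      · intro x _
        rw [norm_zero, zero_pow two_ne_zero]
        exact div_nonneg (hsupN i j) hN0.le
      · intro x _ h
        exact absurd rfl h
      · intro h
        exact absurd rfl h
      · intro X _ ν _
        beta_reduce
        rw [hft0 i hi, zero_div, zero_mul]
        unfold ft
        simp

end Pool.Agent.H6.DM.CC
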