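import Mathlib

/-!
# The twelfth moment in the whole conductor: the numbers of the dual sums
-/

set_option autoImplicit false

namespace Pool.Agent.H6.DM.P2

/-- the numbers -/
theorem num {Cz Cv Cp Cs d T a B g Θ R D r q qe ne P e ε Wn S1 S2 : ℝ} (hCz : 0 ≤ Cz)
    (hCp : 0 ≤ Cp) (hCs : 1 ≤ Cs) (hd : 1 ≤ d) (hT : 1 ≤ T) (ha : 0 < a) (hB : 0 < B)
    (hg : 1 ≤ g) (hΘ : 0 ≤ Θ) (hR : 0 ≤ R) (hD : 1 ≤ D) (hr : 1 ≤ r) (hqe : 0 < qe)
    (hne : 0 < ne) (hq : qe * ne = q) (he : 0 < e)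
    (heε : e ≤ ε) (hWn : Wn = T ^ (e / 8)) (h1 : a * B * qe * g ^ 2 ≤ T) (h2 : a * Θ ≤ 1)
    (_hP0 : 0 ≤ P) (hP : P ^ 2 ≤ d * T ^ (e / 4))
    (hS1 : S1 ≤ Cz * (d * (r * qe * (a * B)) * Wn) * (Cv * P) ^ 2)
    (hS2 : S2 ≤ Cp * (Real.sqrt d * (r ^ 2 * (R * (Cs * (D * (r * q))) / g +
      R ^ 2 * (ne * Θ / B)))))
    (hS10 : 0 ≤ S1) (hS20 : 0 ≤ S2) :
    Real.sqrt S1 * Real.sqrt S2 ≤ (Cz * Cp * Cs * Cv ^ 2 + 1) * (D * d ^ 2 * r ^ 2 * T ^ ε *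
      (Real.sqrt q * (R ^ (1 / 2 : ℝ) * (T ^ (1 / 2 : ℝ) * g ^ (-(3 / 2) : ℝ)) + R))) := by
  have hT0 : 0 < T := by linarith
  have hd0 : 0 < d := by linarith
  have hg0 : 0 < g := by linarith
  have hD0 : 0 < D := by linarith
  have hCs0 : 0 < Cs := by linarith
  have hr0 : 0 < r := by linarith
  have hq0 : 0 < q := by rw [← hq]; positivity
  set X : ℝ := R ^ (1 / 2 : ℝ) * (T ^ (1 / 2 : ℝ) * g ^ (-(3 / 2) : ℝ)) with hX
  have hX0 : 0 ≤ X := by positivity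
  set sd := Real.sqrt d with hsd
  have hsd0 : 0 ≤ sd := Real.sqrt_nonneg _
  have hsd1 : sd ≤ d := by
    rw [hsd, Real.sqrt_le_left hd0.le]
    nlinarith
  have hU : d * sd * Wn * P ^ 2 ≤ d ^ 4 * (T ^ ε) ^ 2 := by
    have e2 : T ^ (e / 8) * T ^ (e / 4) ≤ (T ^ ε) ^ 2 := by
      rw [← Real.rpow_add hT0, ← Real.rpow_natCast, ← Real.rpow_mul hT0.le]
      refine Real.rpow_le_rpow_of_exponent_le hT ?_
      push_cast
      linarith
    calc d * sd * Wn * P ^ 2 ≤ d * d * Wn * (d * T ^ (e / 4)) := by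
          rw [hWn]
          gcongr
      _ = d ^ 3 * (T ^ (e / 8) * T ^ (e / 4)) := by rw [hWn]; ring
      _ ≤ d ^ 4 * (T ^ ε) ^ 2 := by
          refine mul_le_mul (pow_le_pow_right₀ hd (by norm_num)) e2 (by positivity)
            (by positivity)
  have hX2 : X ^ 2 = R * T / g ^ 3 := by
    have a1 : (R ^ (1 / 2 : ℝ)) ^ 2 = R := by
      rw [← Real.rpow_natCast, ← Real.rpow_mul hR]
      norm_num
    have a2 : (T ^ (1 / 2 : ℝ)) ^ 2 = T := by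
      rw [← Real.rpow_natCast, ← Real.rpow_mul hT0.le]
      norm_num
    have a3 : (g ^ (-(3 / 2) : ℝ)) ^ 2 = (g ^ 3)⁻¹ := by
      rw [← Real.rpow_natCast, ← Real.rpow_mul hg0.le, ← Real.rpow_natCast g 3,
        ← Real.rpow_neg hg0.le]
      norm_num
    rw [hX, mul_pow, mul_pow, a1, a2, a3, div_eq_mul_inv]
    ring
  have hV : qe * (a * B) * (R * (Cs * (D * (r * q))) / g + R ^ 2 * (ne * Θ / B)) ≤
      q * (Cs * (D ^ 2 * r) * (X ^ 2 + R ^ 2)) := by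
    have e1 : qe * (a * B) * (R * (Cs * (D * (r * q))) / g + R ^ 2 * (ne * Θ / B)) =
        q * (Cs * (R * D * r * (a * B * qe * g ^ 2 / g ^ 3)) + R ^ 2 * (a * Θ)) := by
      rw [← hq]
      field_simp
    rw [e1, hX2]
    refine mul_le_mul_of_nonneg_left ?_ hq0.le
    have hDr : 1 ≤ D ^ 2 * r := one_le_mul_of_one_le_of_one_le (one_le_pow₀ hD) hr
    have e2 : Cs * (R * D * r * (a * B * qe * g ^ 2 / g ^ 3)) ≤
        Cs * (R * (D ^ 2 * r) * (T / g ^ 3)) := by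
      have h3 : a * B * qe * g ^ 2 / g ^ 3 ≤ T / g ^ 3 := by gcongr
      have h4 : D ≤ D ^ 2 := by nlinarith
      have h5 : R * D * r ≤ R * (D ^ 2 * r) := by
        rw [mul_assoc]
        gcongr
      gcongr
    have e3 : R ^ 2 * (a * Θ) ≤ Cs * (D ^ 2 * r) * R ^ 2 := by
      have h3 : a * Θ ≤ Cs * (D ^ 2 * r) := h2.trans (one_le_mul_of_one_le_of_one_le hCs hDr)
      calc R ^ 2 * (a * Θ) ≤ R ^ 2 * (Cs * (D ^ 2 * r)) :=
            mul_le_mul_of_nonneg_left h3 (by positivity)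
        _ = Cs * (D ^ 2 * r) * R ^ 2 := by ring
    calc Cs * (R * D * r * (a * B * qe * g ^ 2 / g ^ 3)) + R ^ 2 * (a * Θ) ≤
          Cs * (R * (D ^ 2 * r) * (T / g ^ 3)) + Cs * (D ^ 2 * r) * R ^ 2 := add_le_add e2 e3
      _ = Cs * (D ^ 2 * r) * (R * T / g ^ 3 + R ^ 2) := by ring
  have hbr : 0 ≤ R * (Cs * (D * (r * q))) / g + R ^ 2 * (ne * Θ / B) := by positivity
  have hWn0 : 0 ≤ Wn := by rw [hWn]; positivity
  have hC0 : 0 ≤ Cz * Cp * Cs * Cv ^ 2 := by positivity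
  rw [← Real.sqrt_mul hS10]
  refine Real.sqrt_le_iff.2 ⟨by positivity, ?_⟩
  calc S1 * S2 ≤ (Cz * (d * (r * qe * (a * B)) * Wn) * (Cv * P) ^ 2) *
        (Cp * (sd * (r ^ 2 * (R * (Cs * (D * (r * q))) / g + R ^ 2 * (ne * Θ / B))))) :=
        mul_le_mul hS1 hS2 hS20 (by positivity)
    _ = (Cz * Cp * Cv ^ 2 * r ^ 3) * ((d * sd * Wn * P ^ 2) *
        (qe * (a * B) * (R * (Cs * (D * (r * q))) / g + R ^ 2 * (ne * Θ / B)))) := by ring
    _ ≤ (Cz * Cp * Cv ^ 2 * r ^ 3) * ((d ^ 4 * (T ^ ε) ^ 2) *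
        (q * (Cs * (D ^ 2 * r) * (X ^ 2 + R ^ 2)))) := by
        refine mul_le_mul_of_nonneg_left ?_ (by positivity)
        exact mul_le_mul hU hV (by positivity) (by positivity)
    _ = (Cz * Cp * Cs * Cv ^ 2) * ((D * d ^ 2 * r ^ 2 * T ^ ε) ^ 2 * (q * (X ^ 2 + R ^ 2))) := by
        ring
    _ ≤ (Cz * Cp * Cs * Cv ^ 2 + 1) ^ 2 * ((D * d ^ 2 * r ^ 2 * T ^ ε) ^ 2 *
        (q * (X + R) ^ 2)) := by
        have h4 : Cz * Cp * Cs * Cv ^ 2 ≤ (Cz * Cp * Cs * Cv ^ 2 + 1) ^ 2 := by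
          rw [add_sq, one_pow, mul_one]
          linarith [sq_nonneg (Cz * Cp * Cs * Cv ^ 2)]
        refine mul_le_mul h4 ?_ (by positivity) (by positivity)
        refine mul_le_mul_of_nonneg_left ?_ (by positivity)
        refine mul_le_mul_of_nonneg_left ?_ hq0.le
        have h3 := mul_nonneg hX0 hR
        linarith [add_sq X R]
    _ = (Cz * Cp * Cs * Cv ^ 2 + 1) ^ 2 * ((D * d ^ 2 * r ^ 2 * T ^ ε) ^ 2 *
        (Real.sqrt q ^ 2 * (X + R) ^ 2)) := by rw [Real.sq_sqrt hq0.le]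
    _ = ((Cz * Cp * Cs * Cv ^ 2 + 1) * (D * d ^ 2 * r ^ 2 * T ^ ε *
        (Real.sqrt q * (X + R)))) ^ 2 := by ring

/-- the term at zero -/
theorem num_zero {Cv Ce T Nk ne a r B q t d : ℝ} (hCv : 0 ≤ Cv) (hCe : 0 ≤ Ce) (hT : T = Nk * t)
    (hNk : Nk = ne * q) (hne : 0 < ne) (hq : 0 ≤ q) (hqr : q ≤ r) (hr : 0 < r) (hd : 1 ≤ d)
    (hB : 0 < B) (ha : 0 ≤ a) (ht : 0 ≤ t) (hat : a * t ≤ B) :
    Cv * (T / ne * a) * (r * (Ce * B⁻¹)) ≤ Cv * Ce * (r ^ 2 * d) := by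
  have h1 : Cv * (T / ne * a) * (r * (Ce * B⁻¹)) = Cv * Ce * (r * (q * (a * t) / B)) := by
    rw [hT, hNk]
    field_simp
  rw [h1]
  refine mul_le_mul_of_nonneg_left ?_ (mul_nonneg hCv hCe)
  have h2 : q * (a * t) / B ≤ q := by
    rw [div_le_iff₀ hB]
    exact mul_le_mul_of_nonneg_left hat hq
  calc r * (q * (a * t) / B) ≤ r * r := mul_le_mul_of_nonneg_left (h2.trans hqr) hr.le
    _ = r ^ 2 * 1 := by ring
    _ ≤ r ^ 2 * d := mul_le_mul_of_nonneg_left hd (sq_nonneg r)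

/-- the tail -/
theorem num_tail {Cv Ce Cz T w z d r qe a B t DN X : ℝ} (hCv : 0 ≤ Cv) (hCe : 0 ≤ Ce)
    (hCz : 0 ≤ Cz) (hT : 1 ≤ T) (_hw0 : 0 ≤ w) (hw : w ≤ (T ^ 2)⁻¹) (hz : 0 ≤ z) (hd : 1 ≤ d)
    (hr : 1 ≤ r) (hqe : 0 ≤ qe) (ha0 : 0 ≤ a) (ha1 : a ≤ 1) (hB0 : 0 ≤ B) (hBt : B ≤ t)
    (hDN : DN ≤ z * (d * (r * qe))) (hDN0 : 0 ≤ DN) (hqt : qe * t ≤ T)
    (hX : X ≤ Cz * (w * (1 + DN * (a * B)))) :
    Cv * Ce * (r ^ 2 * d) + Cv * T * (r * Ce) * X ≤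
      Cv * Ce * (1 + Cz * (1 + z)) * (r ^ 2 * d) := by
  have hT0 : 0 < T := by linarith
  have hr0 : 0 < r := by linarith
  have hd0 : 0 < d := by linarith
  have h3 : a * B ≤ t := by
    calc a * B ≤ 1 * B := mul_le_mul_of_nonneg_right ha1 hB0
      _ = B := one_mul _
      _ ≤ t := hBt
  have h4 : DN * (a * B) ≤ z * (d * r) * T := by
    calc DN * (a * B) ≤ z * (d * (r * qe)) * t := by
          refine mul_le_mul hDN h3 (mul_nonneg ha0 hB0) (by positivity)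
      _ = z * (d * r) * (qe * t) := by ring
      _ ≤ z * (d * r) * T := mul_le_mul_of_nonneg_left hqt (by positivity)
  have h5 : 1 ≤ d * r * T :=
    one_le_mul_of_one_le_of_one_le (one_le_mul_of_one_le_of_one_le hd hr) hT
  have h6 : 0 ≤ 1 + DN * (a * B) := by positivity
  have h7 : T * (w * (1 + DN * (a * B))) ≤ (1 + z) * (r * d) := by
    calc T * (w * (1 + DN * (a * B))) ≤ T * ((T ^ 2)⁻¹ * (d * r * T + z * (d * r) * T)) := by
          refine mul_le_mul_of_nonneg_left ?_ hT0.le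
          refine mul_le_mul hw (add_le_add h5 h4) h6 (by positivity)
      _ = (1 + z) * (r * d) := by
          field_simp
  have h8 : Cv * T * (r * Ce) * X ≤ Cv * Ce * Cz * r * ((1 + z) * (r * d)) := by
    calc Cv * T * (r * Ce) * X ≤ Cv * T * (r * Ce) * (Cz * (w * (1 + DN * (a * B)))) :=
          mul_le_mul_of_nonneg_left hX (by positivity)
      _ = Cv * Ce * Cz * r * (T * (w * (1 + DN * (a * B)))) := by ring
      _ ≤ _ := mul_le_mul_of_nonneg_left h7 (by positivity)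
  calc Cv * Ce * (r ^ 2 * d) + Cv * T * (r * Ce) * X ≤
        Cv * Ce * (r ^ 2 * d) + Cv * Ce * Cz * r * ((1 + z) * (r * d)) := by linarith
    _ = Cv * Ce * (1 + Cz * (1 + z)) * (r ^ 2 * d) := by ring

/-- the sum of the two parts -/
theorem num_sum {C1 C2 D d r Te q X R Y : ℝ} (hC1 : 0 ≤ C1) (hD : 1 ≤ D) (hd : 1 ≤ d)
    (hTe : 1 ≤ Te) (hq : 1 ≤ q) (hX : 0 ≤ X) (hR : 0 ≤ R)
    (hY : Y ≤ C2 * (D * d ^ 2 * r ^ 2 * Te * (Real.sqrt q * (X + R)))) :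
    R * (C1 * (r ^ 2 * d)) + Y ≤ (C2 + C1) *
      (D * d ^ 2 * r ^ 2 * Te * (Real.sqrt q * (X + R))) := by
  have hsq1 : 1 ≤ Real.sqrt q := Real.one_le_sqrt.2 hq
  have h2 : r ^ 2 * d ≤ D * d ^ 2 * r ^ 2 * Te := by
    have h3 : d ≤ d ^ 2 := le_self_pow₀ hd two_ne_zero
    have h4 : d ^ 2 ≤ D * d ^ 2 := le_mul_of_one_le_left (sq_nonneg d) hD
    have h5 : D * d ^ 2 * r ^ 2 ≤ D * d ^ 2 * r ^ 2 * Te :=
      le_mul_of_one_le_right (by positivity) hTe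
    have h6 : r ^ 2 * d ≤ D * d ^ 2 * r ^ 2 := by
      rw [mul_comm]
      exact mul_le_mul_of_nonneg_right (h3.trans h4) (sq_nonneg r)
    exact h6.trans h5
  have h3 : r ^ 2 * d * R ≤ D * d ^ 2 * r ^ 2 * Te * (Real.sqrt q * (X + R)) := by
    refine mul_le_mul h2 ?_ hR (by positivity)
    calc R ≤ X + R := by linarith
      _ ≤ Real.sqrt q * (X + R) := le_mul_of_one_le_left (by linarith) hsq1
  have h4 := mul_le_mul_of_nonneg_left h3 hC1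
  calc R * (C1 * (r ^ 2 * d)) + Y ≤ C1 * (D * d ^ 2 * r ^ 2 * Te * (Real.sqrt q * (X + R))) +
        C2 * (D * d ^ 2 * r ^ 2 * Te * (Real.sqrt q * (X + R))) := by linarith
    _ = _ := by ring

theorem num_P {d T u e2 : ℝ} {n : ℕ} (hd : 1 ≤ d) (hT : 1 ≤ T) (he2 : e2 = u / (8 * (n + 2)))
    (he21 : 2 * e2 ≤ 1) : ((d * T ^ (n + 2)) ^ e2) ^ 2 ≤ d * T ^ (u / 4) := by
  have hT0 : 0 < T := by linarith
  have a1 : ((d * T ^ (n + 2)) ^ e2) ^ 2 = d ^ (2 * e2) * T ^ (u / 4) := by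
    rw [← Real.rpow_natCast, ← Real.rpow_mul (by positivity),
      Real.mul_rpow (by linarith) (by positivity), ← Real.rpow_natCast T (n + 2),
      ← Real.rpow_mul hT0.le, he2]
    congr 2
    · push_cast
      ring
    · push_cast
      field_simp
      ring
  rw [a1]
  refine mul_le_mul_of_nonneg_right ?_ (by positivity)
  calc d ^ (2 * e2) ≤ d ^ (1 : ℝ) := Real.rpow_le_rpow_of_exponent_le hd he21
    _ = d := Real.rpow_one _

theorem num_first {a q ne Cs D r g1 g2 : ℝ} (ha : a ≠ 0) (hg2 : g2 ≠ 0) (hne : ne ≠ 0)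
    (hg1 : g1 ≠ 0) :
    a * (q / ne) * (Cs * (D * (r * (ne / g1))) / (a * g2)) = Cs * (D * (r * q)) / (g1 * g2) := by
  field_simp

/-- the number of the terms -/
theorem num_card {Cz z d r qe aB Wn DN S : ℝ} (hCz : 0 ≤ Cz) (haB : 0 ≤ aB) (hWn : 0 ≤ Wn)
    (hDN : DN ≤ z * (d * (r * qe))) (hS : S ≤ Cz * (DN * aB * Wn)) :
    S ≤ Cz * z * (d * (r * qe * aB) * Wn) := by
  refine hS.trans ?_
  calc Cz * (DN * aB * Wn) ≤ Cz * (z * (d * (r * qe)) * aB * Wn) :=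
        mul_le_mul_of_nonneg_left (mul_le_mul_of_nonneg_right
          (mul_le_mul_of_nonneg_right hDN haB) hWn) hCz
    _ = _ := by ring

end Pool.Agent.H6.DM.P2
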