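import Pool.Agent.H6.TM.P2a
import Pool.Agent.H6.DM.P2n
import Pool.Agent.H23.DM.TargetsI
import Pool.Agent.H23.DM.TargetsG
import Pool.Agent.H52.SX.FD

/-!
# The twelfth moment in the whole conductor: the dual sums
-/

set_option autoImplicit false

open NumberField NumberField.InfinitePlace Set Filter Complex
open scoped nonZeroDivisors ENNReal

namespace Pool.Agent.H6.DM.P2

open Pool.Agent.H25.HK Pool.Agent.H23.LB Pool.Agent.H27.TM
open Pool.Agent.H29.DW (dg Rl wv Pos rv)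
open Pool.Agent.H31.SW (DD PP dK)
open Pool.Agent.H23.DM
open Pool.Agent.H63.SWL (PP_pos PP_nonneg one_le_PP PP_mono PP_mul PP_const PP_const_mul one_le_dK
  DD_pos zero_memL)
open Pool.Agent.H6.TM.P2 (tail wt_le_one prods)
open Pool.Agent.H52.SX (nf_pos nf_one_le nf_mul nf_le)

theorem emb_le {K : Type} [Field K] [NumberField K] {α : InfinitePlace K → ℝ}
    {v : InfinitePlace K} (hα : 0 < α v ∧ α v ≤ 1 / 10000) (ν : K) :
    ‖v.embedding ν‖ ≤ ‖mc α ν v‖ := by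
  unfold mc
  rw [norm_mul, Complex.norm_real, Real.norm_eq_abs]
  have hdg : (1 : ℝ) ≤ dg (rv v) := by
    unfold dg
    split_ifs <;> norm_num
  have hpi := Real.pi_gt_three
  have h5 : 1 ≤ |2 * Real.pi * dg (rv v) / α v| := by
    rw [abs_of_nonneg (div_nonneg (by positivity) hα.1.le), le_div_iff₀ hα.1]
    have := hα.2
    nlinarith
  exact le_mul_of_one_le_left (norm_nonneg _) h5

/-- (P2) the dual sums. -/
theorem pf_P2 (hDU : M_DU) (hET : M_ET) (hZT : D_ZT) (hPS : D_PS) (hDV : D_DV) (hSM : D_SM)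
    (hCH : D_CH) (hLN : D_LN) : D_P2 := by
  classical
  intro n ε hn hε
  obtain ⟨u, hu, hu1, huε⟩ : ∃ u : ℝ, 0 < u ∧ u ≤ 1 ∧ u ≤ ε :=
    ⟨min ε 1, lt_min hε one_pos, min_le_right _ _, min_le_left _ _⟩
  have hn' : (0 : ℝ) < n := by exact_mod_cast hn
  obtain ⟨e1, he1'⟩ : ∃ e1 : ℝ, e1 = u / (8 * n) := ⟨_, rfl⟩
  have he10 : 0 < e1 := by rw [he1']; positivity
  obtain ⟨e2, he2'⟩ : ∃ e2 : ℝ, e2 = u / (8 * (n + 2)) := ⟨_, rfl⟩
  have he20 : 0 < e2 := by rw [he2']; positivity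
  have he21 : 2 * e2 ≤ 1 := by
    rw [he2', mul_div_assoc', div_le_one (by positivity)]
    linarith
  obtain ⟨m, hmn, hm⟩ : ∃ m : ℕ, n + 5 ≤ m ∧ 2 / e1 ≤ ((m + 3 : ℕ) : ℝ) - 5 := by
    refine ⟨n + 5 + ⌈2 / e1⌉₊, by omega, ?_⟩
    have := Nat.le_ceil (2 / e1)
    push_cast
    linarith
  refine ⟨m + 3, by omega, fun C₁ hC₁ => ?_⟩
  obtain ⟨Ce, hCe, hET⟩ := hET n (m + 3) C₁ hn hC₁
  obtain ⟨Cz, hCz, hZT⟩ := hZT n (m + 3) hn (by omega)
  obtain ⟨Cp, hCp, hPS⟩ := hPS n m C₁ hn hmn hC₁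
  obtain ⟨Cv, hCv, hDV⟩ := hDV n hn e2 he20
  obtain ⟨Cs, hCs, hSM⟩ := hSM n hn
  refine ⟨(Cz * 2 ^ n * Cp * Cs * Cv ^ 2 + 1) + Cv * Ce * (1 + Cz * (1 + 2 ^ n)), by positivity,
    ?_⟩
  intro K _ _ hK l k κ b κ₃ b₃ e k' M y ω G α τ A ι I γ c E D Q bb hl hk hM hω hCh hek heκ hCO
    hA hG hcls hcd hspc hD hDT hQ hbb
  obtain ⟨hτ, hbt, hbτ, ha0, ha1, hg, hB1, hBT, hT1, haT, haB, haΘ⟩ := prods hK hG
  have hd : 1 ≤ dK K := one_le_dK
  have hDD : 0 < DD M y := DD_pos hM y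
  have hT10 : 0 < PP τ := by linarith
  have hB0 : 0 < PP (bt α τ) := by linarith
  have hα : ∀ v, 0 < α v ∧ α v ≤ 1 / 10000 := fun v => ⟨(hG v).2.1, (hG v).2.2.1⟩
  -- the ideals
  have hkκ := hCh.k_le
  have hκr := hCh.le
  have hkr : k ≤ k.radical := Ideal.le_radical
  have hr0 : k.radical ≠ ⊥ := fun h => hk (le_bot_iff.1 (h ▸ hkr))
  have hkk' : k ≤ k' := by rw [hek]; exact Ideal.mul_le_right
  have hk'0 : k' ≠ ⊥ := fun h => hk (le_bot_iff.1 (h ▸ hkk'))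
  have hke : k ≤ e := by rw [hek]; exact Ideal.mul_le_left
  have he0 : e ≠ ⊥ := fun h => hk (le_bot_iff.1 (h ▸ hke))
  have hκ0 : κ ≠ ⊥ := fun h => hk (le_bot_iff.1 (h ▸ hkκ))
  obtain ⟨b', κ₃', b₃', hCh', -, -, hκ₃0, -, hCH1⟩ := hCH K k κ hk hkκ hκr
  have hκ₃ : κ₃' = κ₃ := by rw [hCh'.κ₃_eq, hCh.κ₃_eq]
  have hb₃ : b₃' = b₃ := by
    have h1 : κ₃' * b₃' = κ₃' * b₃ := by rw [← hCh'.b₃_eq, hκ₃, ← hCh.b₃_eq]
    exact mul_left_cancel₀ hκ₃0 h1
  rw [hb₃] at hCH1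
  obtain ⟨-, hNk, -, -, hN3, -⟩ := hCH1 e k' hek heκ
  obtain ⟨-, hNz0, -, hDDN, hNr1, hNr2, -, -⟩ := hLN K e k.radical k' he0 hr0 hk'0
  have hDDN0 := hDDN 0
  simp only [Pi.zero_apply, mul_zero, Finset.sum_const_zero, neg_zero, zero_div, Real.exp_zero,
    one_mul] at hDDN0
  rw [hK] at hDDN0
  have hNe0 : 0 < Nf K e := nf_pos he0
  have hNe1 : 1 ≤ Nf K e := nf_one_le he0
  have hNk'0 : 0 < Nf K k' := nf_pos hk'0
  have hNk'1 : 1 ≤ Nf K k' := nf_one_le hk'0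
  have hNk1 : 1 ≤ Nf K k := nf_one_le hk
  have hNk0 : 0 < Nf K k := nf_pos hk
  have hNκ1 : 1 ≤ Nf K κ := nf_one_le hκ0
  have hNκ0 : 0 < Nf K κ := nf_pos hκ0
  have hNκe : Nf K κ ≤ Nf K e := nf_le he0 heκ
  have hr1 : 1 ≤ Nf K k.radical := nf_one_le hr0
  obtain ⟨r, hr⟩ : ∃ r : ℝ, r = Nf K k.radical := ⟨_, rfl⟩
  rw [← hr] at hr1 hNr2 ⊢
  have hrp : 0 < r := by linarith
  obtain ⟨T, hT⟩ : ∃ T : ℝ, T = Nf K k * PP τ := ⟨_, rfl⟩
  rw [← hT] at hDT ⊢
  have hT' : 1 ≤ T := by rw [hT]; exact one_le_mul_of_one_le_of_one_le hNk1 hT1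
  have hT0 : 0 < T := by linarith
  have hTτ : PP τ ≤ T := by rw [hT]; exact le_mul_of_one_le_left hT10.le hNk1
  have hTk : Nf K k ≤ T := by rw [hT]; exact le_mul_of_one_le_right hNk0.le hT1
  -- the parameter `W`
  obtain ⟨W, hW⟩ : ∃ W : ℝ, W = T ^ e1 := ⟨_, rfl⟩
  have hW1 : 1 ≤ W := by rw [hW]; exact Real.one_le_rpow hT' he10.le
  have hWn : W ^ n = T ^ (u / 8) := by
    rw [hW, ← Real.rpow_natCast, ← Real.rpow_mul hT0.le, he1']
    congr 1
    field_simp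
  have hWk : W ^ (-(((m + 3 : ℕ) : ℝ) - 5)) ≤ (T ^ 2)⁻¹ := by
    rw [hW, ← Real.rpow_mul hT0.le, ← Real.rpow_natCast, ← Real.rpow_neg hT0.le]
    refine Real.rpow_le_rpow_of_exponent_le hT' ?_
    rw [div_le_iff₀ he10] at hm
    push_cast at hm ⊢
    linarith
  obtain ⟨N, hN⟩ : ∃ N : FI K, N = Nz K k.radical k' e := ⟨_, rfl⟩
  rw [← hN] at hDDN0 hNz0 ⊢
  obtain ⟨hfin, hcard, hsum, htail⟩ := hZT K hK N α τ W hNz0 (fun v => (hα v).1) hW1
  obtain ⟨w, hw⟩ : ∃ w : K → ℝ, w = fun ν => ∏ v : InfinitePlace K,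
    (1 + ‖mc α ν v‖ / bt α τ v) ^ (-((m + 3 : ℕ) : ℝ)) := ⟨_, rfl⟩
  have hw0 : ∀ ν, 0 ≤ w ν := fun ν => by rw [hw]; exact (wt_le_one α τ (m + 3) ν).1
  have hw1 : ∀ ν, w ν ≤ 1 := fun ν => by rw [hw]; exact (wt_le_one α τ (m + 3) ν).2
  have hws : Summable fun ν : {ν : K // ν ∈ N} => w ν := by rw [hw]; exact hsum
  have htl : ∑' ν : {ν : K // ν ∈ N ∧ ¬ ∀ v, ‖mc α ν v‖ ≤ W * bt α τ v}, w ν ≤
      Cz * (W ^ (-(((m + 3 : ℕ) : ℝ) - 5)) * (1 + DD N 0 * (PP α * PP (bt α τ)))) := by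
    rw [hw]
    exact htail
  have hE1 : ∀ i ∈ I, ∀ ν ∈ N, ‖E i ν‖ ≤ r := fun i hi ν hν => by
    have h1 := hCO.norm i hi ν (hN ▸ hν)
    rw [← hr] at h1
    exact le_of_sq_le_sq (h1.trans (le_self_pow₀ hr1 two_ne_zero)) hrp.le
  have hE : ∀ i ∈ I, ∀ ν, ‖Ep α Q (c i) ν‖ ≤ Ce * w ν := fun i hi ν => by
    rw [hw]
    exact (hET K hK α τ (c i) Q hα (hcls i hi) hQ).1 ν
  have hE0 : ∀ i ∈ I, ‖Ep α Q (c i) 0‖ ≤ Ce * (PP (bt α τ))⁻¹ := fun i hi => by
    refine ((hET K hK α τ (c i) Q hα (hcls i hi) hQ).2).trans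
      (mul_le_mul_of_nonneg_left ?_ hCe)
    unfold PP
    rw [← Finset.prod_inv_distrib]
    refine Finset.prod_le_prod (fun v _ => Real.rpow_nonneg (zero_le_one.trans (hbt v)) _)
      fun v _ => ?_
    rw [Real.rpow_neg (zero_le_one.trans (hbt v)), Real.rpow_natCast]
    refine inv_anti₀ (pow_pos (zero_lt_one.trans_le (hbt v)) _)
      (pow_le_pow_right₀ (hbt v) ?_)
    have : v.mult ≤ 2 := by
      unfold InfinitePlace.mult
      split_ifs <;> norm_num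
    omega
  obtain ⟨hAfin, hde⟩ := hDV K hK l k e k' M y ω α A hl hk hM hω (fun v => (hα v).1) hek hA
  have hCv0 : 0 ≤ Cv := by linarith
  have hCs0 : 0 < Cs := by linarith
  have hNl0 : 0 < Nf K l := nf_pos hl
  have hb1 : ∀ ν, ‖bb ν‖ ≤ Cv * (T / Nf K e * PP α) := fun ν => by
    refine (hbb ν).trans (((hde ν).2.1).trans ?_)
    refine mul_le_mul_of_nonneg_left (mul_le_mul_of_nonneg_right ?_ ha0.le) hCv0
    rw [← div_div]
    exact div_le_div_of_nonneg_right hDT hNe0.le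
  have hb2 : ∀ ν, ‖bb ν‖ ≤ Cv * T := fun ν => by
    refine (hb1 ν).trans (mul_le_mul_of_nonneg_left ?_ hCv0)
    calc T / Nf K e * PP α ≤ T * 1 :=
          mul_le_mul (div_le_self hT0.le hNe1) ha1 ha0.le hT0.le
      _ = T := mul_one _
  -- the covolume of the dual lattice
  obtain ⟨q, hq⟩ : ∃ q : ℝ, q = Nf K k' := ⟨_, rfl⟩
  obtain ⟨ne, hne⟩ : ∃ ne : ℝ, ne = Nf K e := ⟨_, rfl⟩
  rw [← hne] at hNe0 hNe1 hNκe hNk hN3 hDDN0 hb1
  rw [← hq] at hNk'0 hNk'1 hNk hN3 hNr1 hNr2 ⊢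
  have hDN : DD N 0 ≤ 2 ^ n * (dK K * (r * (q / ne))) := by
    rw [hDDN0]
    calc 2 ^ n * dK K * (Nf K (k.radical ⊓ k') / ne) ≤ 2 ^ n * dK K * (r * q / ne) :=
          mul_le_mul_of_nonneg_left (div_le_div_of_nonneg_right hNr2 hNe0.le)
            (mul_nonneg (pow_nonneg zero_le_two n) (zero_le_one.trans hd))
      _ = _ := by ring
  have hDN0 : 0 ≤ DD N 0 := (DD_pos hNz0 0).le
  have hqT : q / ne * PP τ ≤ T := by
    have h1 : q / ne ≤ Nf K k := by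
      rw [div_le_iff₀ hNe0, hNk]
      exact (le_mul_of_one_le_left hNk'0.le hNe1).trans
        (le_mul_of_one_le_right (mul_pos hNe0 hNk'0).le hNe1)
    rw [hT]
    exact mul_le_mul_of_nonneg_right h1 hT10.le
  -- the set of the main terms
  obtain ⟨S, hS⟩ : ∃ S : Finset {ν : K // ν ∈ N},
      S = hfin.toFinset.subtype (fun ν => ν ∈ N) := ⟨_, rfl⟩
  have hmem : ∀ ν : {ν : K // ν ∈ N}, ν ∈ S ↔
      (ν.1 ≠ 0 ∧ ∀ v, ‖mc α ν.1 v‖ ≤ W * bt α τ v) := fun ν => by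
    rw [hS, Finset.mem_subtype, Set.Finite.mem_toFinset]
    exact ⟨fun h => h.2, fun h => ⟨ν.2, h⟩⟩
  have haB0 : 0 ≤ PP α * PP (bt α τ) := mul_nonneg ha0.le hB0.le
  have hd0 : 0 ≤ dK K := zero_le_one.trans hd
  have hqe0 : 0 < q / ne := div_pos hNk'0 hNe0
  have hz0 : (0 : ℝ) ≤ 2 ^ n := pow_nonneg zero_le_two n
  have hCc0 : 0 ≤ 1 + Cz * (1 + 2 ^ n) :=
    add_nonneg zero_le_one (mul_nonneg hCz (add_nonneg zero_le_one hz0))
  have hCvT : 0 ≤ Cv * T := mul_nonneg hCv0 hT0.le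
  have hScard : (S.card : ℝ) ≤ Cz * 2 ^ n * (dK K * (r * (q / ne) * (PP α * PP (bt α τ))) *
      W ^ n) := by
    refine num_card hCz haB0 (pow_nonneg (zero_le_one.trans hW1) n) hDN ?_
    refine le_trans ?_ hcard
    rw [Set.ncard_eq_toFinset_card _ hfin, hS, Finset.card_subtype]
    exact_mod_cast Finset.card_filter_le _ _
  have hmain := hDU ι {ν : K // ν ∈ N} I S (fun ν => bb ν.1)
    (fun i ν => E i ν.1 * Ep α Q (c i) ν.1)
    (Cv * Ce * (1 + Cz * (1 + 2 ^ n)) * (r ^ 2 * dK K)) ?_ ?_ ?_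
  · -- the sum over `S`
    obtain ⟨P, hP⟩ : ∃ P : ℝ, P = (dK K * T ^ (n + 2)) ^ e2 := ⟨_, rfl⟩
    have hdT : 0 ≤ dK K * T ^ (n + 2) := mul_nonneg hd0 (pow_nonneg hT0.le _)
    have hP0 : 0 ≤ P := by rw [hP]; exact Real.rpow_nonneg hdT _
    have hP2 : P ^ 2 ≤ dK K * T ^ (u / 4) := by
      rw [hP]
      exact num_P hd hT' he2' he21
    have hS1 : ∑ ν ∈ S, ‖bb ν.1‖ ^ 2 ≤ Cz * 2 ^ n *
        (dK K * (r * (q / ne) * (PP α * PP (bt α τ))) * T ^ (u / 8)) * (Cv * P) ^ 2 := by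
      have h1 : ∀ ν ∈ S, ‖bb ν.1‖ ^ 2 ≤ (Cv * P) ^ 2 := by
        intro ν hν
        obtain ⟨h2, h3⟩ := (hmem ν).1 hν
        refine pow_le_pow_left₀ (norm_nonneg _) ?_ 2
        refine (hbb ν.1).trans (((hde ν.1).2.2 (hN ▸ ν.2) h2).trans ?_)
        refine mul_le_mul_of_nonneg_left ?_ hCv0
        have hpn : 0 ≤ ∏ v : InfinitePlace K, ‖v.embedding ν.1‖ ^ v.mult :=
          Finset.prod_nonneg fun v _ => pow_nonneg (norm_nonneg _) _
        rw [hP]
        refine Real.rpow_le_rpow (mul_nonneg (mul_nonneg hd0 (pow_nonneg hNk0.le n)) hpn) ?_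
          he20.le
        rw [mul_assoc]
        refine mul_le_mul_of_nonneg_left ?_ (by linarith)
        calc Nf K k ^ n * ∏ v : InfinitePlace K, ‖v.embedding ν.1‖ ^ v.mult
            ≤ T ^ n * PP (fun v => W * τ v) := by
              refine mul_le_mul (pow_le_pow_left₀ hNk0.le hTk n) ?_ hpn (pow_nonneg hT0.le n)
              refine Finset.prod_le_prod (fun v _ => pow_nonneg (norm_nonneg _) _) fun v _ => ?_
              refine pow_le_pow_left₀ (norm_nonneg _) ?_ _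
              exact (emb_le (hα v) ν.1).trans ((h3 v).trans
                (mul_le_mul_of_nonneg_left (hbτ v) (by linarith)))
          _ = T ^ n * (W ^ n * PP τ) := by rw [PP_const_mul, hK]
          _ ≤ T ^ n * (T * T) := by
              refine mul_le_mul_of_nonneg_left ?_ (pow_nonneg hT0.le n)
              refine mul_le_mul ?_ hTτ hT10.le hT0.le
              rw [hWn]
              calc T ^ (u / 8) ≤ T ^ (1 : ℝ) :=
                    Real.rpow_le_rpow_of_exponent_le hT' (by linarith)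
                _ = T := Real.rpow_one _
          _ = T ^ (n + 2) := by ring
      calc ∑ ν ∈ S, ‖bb ν.1‖ ^ 2 ≤
            ∑ _ν ∈ S, (Cv * P) ^ 2 := Finset.sum_le_sum h1
        _ = (S.card : ℝ) * (Cv * P) ^ 2 := by
            rw [Finset.sum_const, nsmul_eq_mul]
        _ ≤ _ := by
            rw [← hWn]
            exact mul_le_mul_of_nonneg_right hScard (sq_nonneg _)
    -- the sum over the pairs
    obtain ⟨Θ, hΘ'⟩ : ∃ Θ : ℝ, Θ = PP (fun v => 1 + 2 * α v * G v ^ 3) ^ (1 / 2 : ℝ) := ⟨_, rfl⟩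
    obtain ⟨g, hg'⟩ : ∃ g : ℝ, g = Nf K κ * PP G := ⟨_, rfl⟩
    have hg1 : 1 ≤ g := by rw [hg']; exact one_le_mul_of_one_le_of_one_le hNκ1 hg
    have hΘ : 0 ≤ Θ := by
      rw [hΘ']
      refine Real.rpow_nonneg (PP_nonneg fun v => ?_) _
      obtain ⟨g1, g2, -, -, -⟩ := hG v
      exact add_nonneg zero_le_one (mul_nonneg (mul_nonneg zero_le_two g2.le)
        (pow_nonneg (zero_le_one.trans g1) 3))
    have hS2 : ∑ i ∈ I, ∑ j ∈ I, ‖∑' ν : {ν : K // ν ∈ N}, E i ν.1 * Ep α Q (c i) ν.1 *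
        (starRingEnd ℂ) (E j ν.1 * Ep α Q (c j) ν.1)‖ ≤ Cp * (Real.sqrt (dK K) * (r ^ 2 *
        ((I.card : ℝ) * (Cs * (D * (r * q))) / g + (I.card : ℝ) ^ 2 *
        (ne * Θ / PP (bt α τ))))) := by
      have h1 : ∀ i ∈ I, ∑ j ∈ I, ‖∑' ν : {ν : K // ν ∈ N}, E i ν.1 * Ep α Q (c i) ν.1 *
          (starRingEnd ℂ) (E j ν.1 * Ep α Q (c j) ν.1)‖ ≤ Cp * (Real.sqrt (dK K) * (r ^ 2 *
          (Cs * (D * (r * q)) / g + (I.card : ℝ) * (ne * Θ / PP (bt α τ))))) := by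
        intro i hi
        have h2 : ∀ j ∈ I, ‖∑' ν : {ν : K // ν ∈ N}, E i ν.1 * Ep α Q (c i) ν.1 *
            (starRingEnd ℂ) (E j ν.1 * Ep α Q (c j) ν.1)‖ ≤ Cp * (Real.sqrt (dK K) * (r ^ 2 *
            (PP α * (q / ne) * (if ∀ t ∈ k.radical, (γ i - γ j) * t ∈ k' then
            ∏ v : InfinitePlace K, th1 α (c i) (c j) v ^ (-(4 : ℝ)) else 0) +
            ne * Θ / PP (bt α τ)))) := by
          intro j hj
          rw [hN]
          refine (hPS K hK k.radical e k' ι I γ E α τ (c i) (c j) Q hr0 he0 hk'0 hCO hα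
            (hcls i hi) (hcls j hj) hQ i hi j hj).trans ?_
          rw [← hr, ← hq, ← hne, mul_assoc (Real.sqrt (dK K))]
          have hth : ∀ v, 1 ≤ th1 α (c i) (c j) v := fun v => by
            unfold th1
            have := mul_nonneg (hα v).1.le (norm_nonneg (c i v - c j v))
            linarith
          refine mul_le_mul_of_nonneg_left (mul_le_mul_of_nonneg_left
            (mul_le_mul_of_nonneg_left (add_le_add ?_ ?_) (sq_nonneg r))
            (Real.sqrt_nonneg _)) hCp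
          · by_cases hcond : ∀ t ∈ k.radical, (γ i - γ j) * t ∈ k'
            · rw [if_pos hcond, if_pos hcond]
              refine mul_le_mul_of_nonneg_left ?_ (mul_pos ha0 hqe0).le
              refine Finset.prod_le_prod
                (fun v _ => Real.rpow_nonneg (zero_le_one.trans (hth v)) _) fun v _ => ?_
              refine Real.rpow_le_rpow_of_exponent_le (hth v) ?_
              have : (4 : ℝ) ≤ m := by exact_mod_cast (by omega : 4 ≤ m)
              linarith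
            · rw [if_neg hcond, if_neg hcond, mul_zero]
          · refine div_le_div_of_nonneg_right ?_ hB0.le
            refine mul_le_mul ?_ ?_ (Real.rpow_nonneg (PP_nonneg fun v =>
              zero_le_one.trans (hth v)) _) hNe0.le
            · have hb3 := (hcd i hi j hj).1
              have h3 := hN3 _ hb3
              have h4 : 0 < Nf K (k' ⊔ Ideal.span {γ i - γ j}) := nf_pos fun h =>
                hk'0 (le_bot_iff.1 (h ▸ (le_sup_left : k' ≤ k' ⊔ Ideal.span {γ i - γ j})))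
              rw [← Real.sqrt_eq_rpow]
              refine Real.sqrt_le_iff.2 ⟨hNe0.le, ?_⟩
              rw [div_le_iff₀ h4]
              exact h3
            · rw [hΘ']
              refine Real.rpow_le_rpow (PP_nonneg fun v => zero_le_one.trans (hth v)) ?_
                (by norm_num)
              refine PP_mono (fun v => zero_le_one.trans (hth v)) fun v => ?_
              unfold th1
              have h3 := (hcd i hi j hj).2 v
              have h4 := mul_le_mul_of_nonneg_left h3 (hα v).1.le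
              linarith
        have h5 : ∑ j ∈ I, (if ∀ t ∈ k.radical, (γ i - γ j) * t ∈ k' then
            ∏ v : InfinitePlace K, th1 α (c i) (c j) v ^ (-(4 : ℝ)) else 0) ≤
            Cs * (D * (r * (ne / Nf K κ))) / (PP α * PP G) := by
          rw [hr, hne]
          refine hSM K hK k κ b κ₃ b₃ e k' ι I γ c G α D hk hCh hek heκ
            (fun j hj => (hcls j hj).real) (fun v => ?_) hspc i hi
          obtain ⟨g1, g2, g3, g4, -⟩ := hG v
          exact ⟨g2, by linarith, by linarith [mul_comm (G v) (α v)]⟩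
        calc ∑ j ∈ I, ‖∑' ν : {ν : K // ν ∈ N}, E i ν.1 * Ep α Q (c i) ν.1 *
              (starRingEnd ℂ) (E j ν.1 * Ep α Q (c j) ν.1)‖
            ≤ ∑ j ∈ I, Cp * (Real.sqrt (dK K) * (r ^ 2 *
              (PP α * (q / ne) * (if ∀ t ∈ k.radical, (γ i - γ j) * t ∈ k' then
              ∏ v : InfinitePlace K, th1 α (c i) (c j) v ^ (-(4 : ℝ)) else 0) +
              ne * Θ / PP (bt α τ)))) := Finset.sum_le_sum h2
          _ = Cp * (Real.sqrt (dK K) * (r ^ 2 * (PP α * (q / ne) *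
              ∑ j ∈ I, (if ∀ t ∈ k.radical, (γ i - γ j) * t ∈ k' then
              ∏ v : InfinitePlace K, th1 α (c i) (c j) v ^ (-(4 : ℝ)) else 0) +
              (I.card : ℝ) * (ne * Θ / PP (bt α τ))))) := by
              rw [← Finset.mul_sum, ← Finset.mul_sum, ← Finset.mul_sum, Finset.sum_add_distrib,
                ← Finset.mul_sum, Finset.sum_const, nsmul_eq_mul]
          _ ≤ _ := by
              refine mul_le_mul_of_nonneg_left (mul_le_mul_of_nonneg_left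
                (mul_le_mul_of_nonneg_left (add_le_add ?_ le_rfl) (sq_nonneg r))
                (Real.sqrt_nonneg _)) hCp
              refine (mul_le_mul_of_nonneg_left h5 (mul_pos ha0 hqe0).le).trans (le_of_eq ?_)
              rw [hg']
              exact num_first ha0.ne' (zero_lt_one.trans_le hg).ne' hNe0.ne' hNκ0.ne'
      calc ∑ i ∈ I, ∑ j ∈ I, ‖∑' ν : {ν : K // ν ∈ N}, E i ν.1 * Ep α Q (c i) ν.1 *
            (starRingEnd ℂ) (E j ν.1 * Ep α Q (c j) ν.1)‖ ≤ ∑ _i ∈ I, Cp * (Real.sqrt (dK K) *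
            (r ^ 2 * (Cs * (D * (r * q)) / g + (I.card : ℝ) * (ne * Θ / PP (bt α τ))))) :=
            Finset.sum_le_sum h1
        _ = _ := by
            rw [Finset.sum_const, nsmul_eq_mul]
            ring
    have haBq : PP α * PP (bt α τ) * (q / ne) * g ^ 2 ≤ T := by
      have h1 : PP α * PP (bt α τ) * (q / ne) * g ^ 2 =
          (PP α * PP (bt α τ) * PP G ^ 2) * (q * Nf K κ ^ 2 / ne) := by
        rw [hg']
        ring
      have h2 : q * Nf K κ ^ 2 / ne ≤ Nf K k := by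
        rw [div_le_iff₀ hNe0, hNk]
        have h3 : Nf K κ ^ 2 ≤ ne ^ 2 := pow_le_pow_left₀ hNκ0.le hNκe 2
        calc q * Nf K κ ^ 2 ≤ q * ne ^ 2 := mul_le_mul_of_nonneg_left h3 hNk'0.le
          _ = ne * q * ne := by ring
      rw [h1, hT, mul_comm (Nf K k)]
      exact mul_le_mul haB h2 (div_nonneg (mul_nonneg hNk'0.le (sq_nonneg _)) hNe0.le) hT10.le
    have hfinal := num (Cz := Cz * 2 ^ n) (mul_nonneg hCz (pow_nonneg zero_le_two n)) hCp hCs hd hT' ha0 hB0 hg1 hΘ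
      (Nat.cast_nonneg I.card) hD hr1 (div_pos hNk'0 hNe0) hNe0 (div_mul_cancel₀ q hNe0.ne') hu
      huε rfl haBq (hΘ' ▸ haΘ) hP0 hP2 hS1 hS2 (Finset.sum_nonneg fun _ _ => sq_nonneg _)
      (Finset.sum_nonneg fun _ _ => Finset.sum_nonneg fun _ _ => norm_nonneg _)
    refine hmain.trans ?_
    rw [← hg']
    obtain ⟨X, hX⟩ : ∃ X : ℝ, X = (I.card : ℝ) ^ (1 / 2 : ℝ) *
      (T ^ (1 / 2 : ℝ) * g ^ (-(3 / 2) : ℝ)) := ⟨_, rfl⟩
    rw [← hX] at hfinal ⊢
    have hX0 : 0 ≤ X := by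
      rw [hX]
      exact mul_nonneg (Real.rpow_nonneg (Nat.cast_nonneg _) _) (mul_nonneg
        (Real.rpow_nonneg hT0.le _) (Real.rpow_nonneg (zero_le_one.trans hg1) _))
    exact num_sum (mul_nonneg (mul_nonneg hCv0 hCe) hCc0) hD hd (Real.one_le_rpow hT' hε.le)
      hNk'1 hX0 (Nat.cast_nonneg _) hfinal
  · -- summability
    intro i hi
    refine Summable.of_nonneg_of_le (fun _ => sq_nonneg _) (fun ν => ?_)
      (hws.mul_left ((r * Ce) ^ 2))
    calc ‖E i ν.1 * Ep α Q (c i) ν.1‖ ^ 2 ≤ (r * (Ce * w ν.1)) ^ 2 := by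
          rw [norm_mul]
          exact pow_le_pow_left₀ (mul_nonneg (norm_nonneg _) (norm_nonneg _))
            (mul_le_mul (hE1 i hi _ ν.2) (hE i hi _) (norm_nonneg _) hrp.le) 2
      _ = (r * Ce) ^ 2 * (w ν.1 * w ν.1) := by ring
      _ ≤ (r * Ce) ^ 2 * (w ν.1 * 1) := by
          refine mul_le_mul_of_nonneg_left ?_ (sq_nonneg _)
          exact mul_le_mul_of_nonneg_left (hw1 _) (hw0 _)
      _ = (r * Ce) ^ 2 * w ν.1 := by rw [mul_one]
  · intro i hi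
    refine Summable.of_norm_bounded (hws.mul_left (Cv * T * (r * Ce))) fun ν => ?_
    rw [norm_mul, norm_mul]
    calc ‖bb ν.1‖ * (‖E i ν.1‖ * ‖Ep α Q (c i) ν.1‖) ≤ Cv * T * (r * (Ce * w ν.1)) :=
          mul_le_mul (hb2 _) (mul_le_mul (hE1 i hi _ ν.2) (hE i hi _) (norm_nonneg _) hrp.le)
            (mul_nonneg (norm_nonneg _) (norm_nonneg _)) hCvT
      _ = _ := by ring
  · -- the tail
    intro i hi
    obtain ⟨f, hf⟩ : ∃ f : K → ℂ, f = fun ν => if ν ∈ N then bb ν * (E i ν * Ep α Q (c i) ν)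
      else 0 := ⟨_, rfl⟩
    have hfN : ∀ ν ∈ N, f ν = bb ν * (E i ν * Ep α Q (c i) ν) := fun ν hν => by
      rw [hf]
      exact if_pos hν
    have h00 : ‖f 0‖ ≤ Cv * Ce * (r ^ 2 * dK K) := by
      rw [hfN 0 (zero_memL N)]
      by_cases hz : E i 0 = 0
      · rw [hz, zero_mul, mul_zero, norm_zero]
        exact mul_nonneg (mul_nonneg hCv0 hCe) (mul_nonneg (sq_nonneg r) hd0)
      · have hrk := hCO.zero i hi hz
        have hqr : q ≤ r := by
          rw [hq, hr]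
          exact nf_le hr0 hrk
        rw [norm_mul, norm_mul]
        refine le_trans ?_ (num_zero hCv0 hCe hT hNk hNe0 hNk'0.le hqr hrp hd hB0 ha0.le
          hT10.le haT)
        exact mul_le_mul (hb1 _) (mul_le_mul (hE1 i hi _ (zero_memL N)) (hE0 i hi)
          (norm_nonneg _) hrp.le) (mul_nonneg (norm_nonneg _) (norm_nonneg _))
          (mul_nonneg hCv0 (mul_nonneg (div_nonneg hT0.le hNe0.le) ha0.le))
    have h1 : ∀ ν, ‖f ν‖ ≤ Cv * T * (r * Ce) * w ν := fun ν => by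
      by_cases hν : ν ∈ N
      · rw [hfN ν hν, norm_mul, norm_mul]
        calc ‖bb ν‖ * (‖E i ν‖ * ‖Ep α Q (c i) ν‖) ≤ Cv * T * (r * (Ce * w ν)) :=
              mul_le_mul (hb2 _) (mul_le_mul (hE1 i hi _ hν) (hE i hi _) (norm_nonneg _)
                hrp.le) (mul_nonneg (norm_nonneg _) (norm_nonneg _)) hCvT
          _ = _ := by ring
      · have h3 : f ν = 0 := by
          rw [hf]
          exact if_neg hν
        rw [h3, norm_zero]
        exact mul_nonneg (mul_nonneg hCvT (mul_nonneg hrp.le hCe)) (hw0 ν)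
    have hcongr : (∑' ν : {ν : {ν : K // ν ∈ N} // ν ∉ S}, bb ν.1.1 *
        (E i ν.1.1 * Ep α Q (c i) ν.1.1)) = ∑' ν : {ν : {ν : K // ν ∈ N} // ν ∉ S}, f ν.1 :=
      tsum_congr fun ν => (hfN _ ν.1.2).symm
    rw [hcongr]
    refine (tail N S f w
      (fun ν => ∀ v, ‖mc α ν v‖ ≤ W * bt α τ v) hw0 hws h00
      (mul_nonneg hCvT (mul_nonneg hrp.le hCe)) h1
      fun ν hν hν0 hPP => hν ((hmem ν).2 ⟨hν0, hPP⟩)).trans ?_
    exact num_tail hCv0 hCe hCz hT' (Real.rpow_nonneg (zero_le_one.trans hW1) _) hWk hz0 hd hr1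
      hqe0.le ha0.le ha1 hB0.le hBT hDN hDN0 hqT htl

end Pool.Agent.H6.DM.P2
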